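import Pool.Agent.X44.GR.V2

/-!
# Half-plane self-avoiding walk: ratio limit theorem with a rate and merging of the laws, in domains

For the uniform `n`-step self-avoiding walk in a domain `D` of the square lattice (the closed upper
half-plane, or any larger set; a wedge, or any larger set; or any set for which the number of walks is
at least `μ^m exp (- A (log m)^s)` at the lengths `m` between `n / 2` and `2 n`): the number of walks
satisfies a ratio limit theorem with a rate, and the laws of the `n`-step and of the `(n+2)`-step walk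
are close, for events on the first and last `k` steps and for Lipschitz functionals of the rescaled path.

Proof in outline. Insert bumps (a step is replaced by three steps). The number of insertions which
leave the domain is at most of order `(log n)^s` outside a set of walks which is negligible compared
with the lower bound, because walks with many such insertions have many extensions. The second order
comparison of the weights at the lengths `m`, `m + 2`, `m + 4` gives an almost convexity of the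
logarithms, which turns the bounds `μ^m exp (± A (log m)^s)` into a rate.
-/

set_option autoImplicit false
set_option linter.unusedVariables false

namespace Pool.Agent.Results.MP_df1d0b_pr.RatioLimitInDomains

open Filter Topology

/-- The self-avoiding walks on `ℤ²` with `n` steps which start at the origin and stay in `D`. -/
def walks (D : Set (ℤ × ℤ)) (n : ℕ) : Set (Fin (n + 1) → ℤ × ℤ) :=
  {w | w 0 = 0 ∧ Function.Injective w ∧ (∀ i : Fin n,
    |(w i.succ).1 - (w i.castSucc).1| + |(w i.succ).2 - (w i.castSucc).2| = 1) ∧ ∀ i, w i ∈ D}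

/-- The site of the walk `w` at the time `k` (the last site if `k > n`). -/
def site {n : ℕ} (w : Fin (n + 1) → ℤ × ℤ) (k : ℕ) : ℤ × ℤ := w ⟨min k n, by omega⟩

/-- The mean of `g` under the uniform law on the `n`-step walks in `D`. -/
noncomputable def mean (D : Set (ℤ × ℤ)) (n : ℕ) (g : (Fin (n + 1) → ℤ × ℤ) → ℝ) : ℝ :=
  (∑ᶠ w ∈ walks D n, g w) / ((walks D n).ncard : ℝ)

/-- The rescaled walk as a path with the time parameter `t` in `[0, 1]`: the site at the time
`⌊n t⌋`, divided by `R`. -/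
noncomputable def path {n : ℕ} (R : ℝ) (w : Fin (n + 1) → ℤ × ℤ) (t : ℝ) : ℝ × ℝ :=
  (((site w ⌊(n : ℝ) * t⌋₊).1 : ℝ) / R, ((site w ⌊(n : ℝ) * t⌋₊).2 : ℝ) / R)

/-- The ratio limit theorem and the merging of the laws of the `n`-step and the `(n+2)`-step walk in
the domain `D`, with the constant `K` and the exponent `s`:
* `ratio`: the ratio of the numbers of walks is `μ² + O((log n)^s / √n)`;
* `ends`: for every `k` and every function `G` with values in `[0, 1]` of the first `k + 1` and the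
  last `k + 1` sites, the means differ at most by `K ((log n)^s ((log n)^s + k) / n)^(1/2)`;
* `path`: for every `R > 0` and every function `F` of the path rescaled by `R` with values in `[0, 1]`
  which is 1-Lipschitz for the sup distance on `[0, 1]`, the means differ at most by
  `K ((log n)^s / √n + ((log n)^s / R)^(1/2))`. -/
structure Merging (K : ℝ) (s : ℕ) (μ : ℝ) (D : Set (ℤ × ℤ)) (n : ℕ) : Prop where
  ratio : |((walks D (n + 2)).ncard : ℝ) / ((walks D n).ncard : ℝ) - μ ^ 2| ≤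
    K * (Real.log n ^ s / √n)
  ends : ∀ (k : ℕ) (G : (Fin (k + 1) → ℤ × ℤ) → (Fin (k + 1) → ℤ × ℤ) → ℝ),
    (∀ a b, 0 ≤ G a b ∧ G a b ≤ 1) →
    |mean D (n + 2) (fun w => G (fun i => site w i) (fun i => site w (n + 2 - i))) -
      mean D n (fun w => G (fun i => site w i) (fun i => site w (n - i)))| ≤
      K * √((Real.log n ^ s + k) * Real.log n ^ s / n)
  path : ∀ (R : ℝ) (F : (ℝ → ℝ × ℝ) → ℝ), 0 < R → (∀ x, 0 ≤ F x ∧ F x ≤ 1) →
    (∀ (x y : ℝ → ℝ × ℝ) (δ : ℝ), (∀ t, 0 ≤ t → t ≤ 1 → ‖x t - y t‖ ≤ δ) → |F x - F y| ≤ δ) →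
    |mean D (n + 2) (fun w => F (path R w)) - mean D n (fun w => F (path R w))| ≤
      K * (Real.log n ^ s / √n + √(Real.log n ^ s / R))

/-- **Theorem.** Let `μ = lim c_n^(1/n)`, `c_n` the number of all `n`-step self-avoiding walks on `ℤ²`.
(1) For all `A` and `s ≥ 2` there is `K` such that for every `D ⊆ ℤ²` and `n ≥ 3` with
`#(walks D m) ≥ μ^m exp (- A (log m)^s)` for all `m` of the parity of `n` with `n/2 ≤ m ≤ 2n`:
`Merging K s μ D n`.
(2) There is `K` with `Merging K 2 μ D n` for every `D` which contains the closed upper half plane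
and every `n ≥ 3`.
(3) For `0 < η ≤ 1` there is `K` with `Merging K 3 μ D n` for every `D` which contains the wedge
`|x| ≤ η y` and every `n ≥ 3`.
(4) For all `A` and `s ≥ 2` there is `K` such that for every `D`, `n ≥ 3` and weight `ψ ≥ 0` on `ℤ²`
with `ψ(x) ≤ exp (A (log m)^s)` for `0 < |x|₁ ≤ m` (`n/2 ≤ m ≤ 2n+2`) and
`∑_w ψ(w(m)) ≥ μ^m exp (- A (log m)^s)` (`n/2 ≤ m ≤ 2n`), the sum over the `m`-step walks in `D`:
the ratio of the sums at `n + 2` and at `n` is `μ²` up to the error `K (log n)^s / √n`.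
(5) For every `P` there is `K` such that for every `D` which contains the closed upper half plane,
`|p| ≤ P` and `n ≥ 3` the ratio of the sums of `|w(n+2)|^p` and `|w(n)|^p` (Euclidean norm) over the
walks in `D` is `μ²` up to the error `K (log n)^2 / √n`. -/
theorem result : ∃ μ : ℝ, 0 < μ ∧
    Tendsto (fun n : ℕ => ((walks Set.univ n).ncard : ℝ) ^ (1 / (n : ℝ))) atTop (𝓝 μ) ∧
    (∀ (A : ℝ) (s : ℕ), 2 ≤ s → ∃ K : ℝ, ∀ (D : Set (ℤ × ℤ)) (n : ℕ), 3 ≤ n →
      (∀ m : ℕ, n ≤ 2 * m → m ≤ 2 * n → m % 2 = n % 2 →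
        μ ^ m * Real.exp (-(A * Real.log m ^ s)) ≤ ((walks D m).ncard : ℝ)) →
      Merging K s μ D n) ∧
    (∃ K : ℝ, ∀ D : Set (ℤ × ℤ), {x : ℤ × ℤ | 0 ≤ x.2} ⊆ D → ∀ n : ℕ, 3 ≤ n →
      Merging K 2 μ D n) ∧
    (∀ η : ℝ, 0 < η → η ≤ 1 → ∃ K : ℝ, ∀ D : Set (ℤ × ℤ),
      {x : ℤ × ℤ | |(x.1 : ℝ)| ≤ η * x.2} ⊆ D → ∀ n : ℕ, 3 ≤ n → Merging K 3 μ D n) ∧
    (∀ (A : ℝ) (s : ℕ), 2 ≤ s → ∃ K : ℝ, ∀ (D : Set (ℤ × ℤ)) (ψ : ℤ × ℤ → ℝ) (n : ℕ), 3 ≤ n →
      (∀ x, 0 ≤ ψ x) →
      (∀ m : ℕ, n ≤ 2 * m → m ≤ 2 * n + 2 → m % 2 = n % 2 → ∀ x : ℤ × ℤ, |x.1| + |x.2| ≤ m → x ≠ 0 →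
        ψ x ≤ Real.exp (A * Real.log m ^ s)) →
      (∀ m : ℕ, n ≤ 2 * m → m ≤ 2 * n → m % 2 = n % 2 →
        μ ^ m * Real.exp (-(A * Real.log m ^ s)) ≤ ∑ᶠ w ∈ walks D m, ψ (w (Fin.last m))) →
      |(∑ᶠ w ∈ walks D (n + 2), ψ (w (Fin.last (n + 2)))) / (∑ᶠ w ∈ walks D n, ψ (w (Fin.last n))) -
        μ ^ 2| ≤ K * (Real.log n ^ s / √n)) ∧
    (∀ P : ℝ, ∃ K : ℝ, ∀ D : Set (ℤ × ℤ), {x : ℤ × ℤ | 0 ≤ x.2} ⊆ D → ∀ p : ℝ, |p| ≤ P →
      ∀ n : ℕ, 3 ≤ n →
      |(∑ᶠ w ∈ walks D (n + 2), (√(((w (Fin.last (n + 2))).1 : ℝ) ^ 2 +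
          ((w (Fin.last (n + 2))).2 : ℝ) ^ 2)) ^ p) /
        (∑ᶠ w ∈ walks D n, (√(((w (Fin.last n)).1 : ℝ) ^ 2 + ((w (Fin.last n)).2 : ℝ) ^ 2)) ^ p) -
        μ ^ 2| ≤ K * (Real.log n ^ 2 / √n)) := by
  have hM : ∀ {K : ℝ} {s : ℕ} {μ : ℝ} {D : Set (ℤ × ℤ)} {n : ℕ},
      Pool.Agent.X44.GR.V.Merging K s μ D n → Merging K s μ D n :=
    fun h => ⟨h.ratio, h.ends, h.path⟩
  have hHp : Pool.Agent.X44.GR.P.Hp ⊆ {x : ℤ × ℤ | 0 ≤ x.2} := by
    rintro x (h | h)
    · exact h.le
    · exact h.1.ge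
  refine ⟨_root_.H981.mu, _root_.H981.mu_pos, Pool.Agent.X44.GR.V.tendsto_mu,
    fun A s hs => ?_, ?_, fun η h1 h2 => ?_, fun A s hs => ?_, fun P => ?_⟩
  · obtain ⟨K, hK, h⟩ := Pool.Agent.X44.GR.V.merging A s hs
    exact ⟨K, fun D n hn hl => hM (h D n hn hl)⟩
  · obtain ⟨A, hA, hlow⟩ := Pool.Agent.X44.GR.V.low_half
    obtain ⟨K, hK, h⟩ := Pool.Agent.X44.GR.V.merging A 2 le_rfl
    exact ⟨K, fun D hD n hn => hM (h D n hn (hlow D (hHp.trans hD) n hn))⟩
  · obtain ⟨A, hA, hlow⟩ := Pool.Agent.X44.GR.V.low_wedge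
    obtain ⟨K, hK, h⟩ := Pool.Agent.X44.GR.V.merging (A / η) 3 (by norm_num)
    exact ⟨K, fun D hD n hn => hM (h D n hn (hlow η h1 h2 D hD n hn))⟩
  · obtain ⟨K, hK, h⟩ := Pool.Agent.X44.GR.V.weight_dom A s hs
    exact ⟨K, h⟩
  · -- moments
    obtain ⟨A, hA, hlow⟩ := Pool.Agent.X44.GR.V.low_half
    have hl2 : 0 < Real.log 2 := Real.log_pos (by norm_num)
    obtain ⟨B, hB⟩ : ∃ B : ℝ, B = A + 2 * |P| / Real.log 2 := ⟨_, rfl⟩
    obtain ⟨K, hK, h⟩ := Pool.Agent.X44.GR.V.weight_dom B 2 le_rfl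
    refine ⟨K, fun D hD p hp n hn => ?_⟩
    have hP : |p| ≤ |P| := hp.trans (le_abs_self P)
    -- two-sided bounds for the weight
    have hb : ∀ m : ℕ, 2 ≤ m → ∀ x : ℤ × ℤ, |x.1| + |x.2| ≤ m → x ≠ 0 →
        Real.exp (-(2 * |P| / Real.log 2 * Real.log m ^ 2)) ≤ (√((x.1 : ℝ) ^ 2 + (x.2 : ℝ) ^ 2)) ^ p ∧
        (√((x.1 : ℝ) ^ 2 + (x.2 : ℝ) ^ 2)) ^ p ≤ Real.exp (2 * |P| / Real.log 2 * Real.log m ^ 2) := by
      intro m hm x hx hx0
      have hm2 : (2 : ℝ) ≤ m := by exact_mod_cast hm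
      have hlm : Real.log 2 ≤ Real.log m := Real.log_le_log (by norm_num) hm2
      obtain ⟨r, hr⟩ : ∃ r, r = √((x.1 : ℝ) ^ 2 + (x.2 : ℝ) ^ 2) := ⟨_, rfl⟩
      have hr1 : 1 ≤ r := by
        rw [hr, ← Real.sqrt_one]
        apply Real.sqrt_le_sqrt
        have : 1 ≤ x.1 ^ 2 + x.2 ^ 2 := by
          by_contra hc
          push Not at hc
          have h1 : x.1 ^ 2 = 0 := by nlinarith [sq_nonneg x.1, sq_nonneg x.2]
          have h2 : x.2 ^ 2 = 0 := by nlinarith [sq_nonneg x.1, sq_nonneg x.2]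
          exact hx0 (Prod.ext (by simpa using h1) (by simpa using h2))
        exact_mod_cast this
      have hrm : r ≤ m := by
        rw [hr]
        apply Real.sqrt_le_iff.2
        refine ⟨by positivity, ?_⟩
        have h1 : (|x.1| + |x.2|) ^ 2 ≤ (m : ℤ) ^ 2 :=
          pow_le_pow_left₀ (by positivity) hx 2
        have h2 : x.1 ^ 2 + x.2 ^ 2 ≤ (|x.1| + |x.2|) ^ 2 := by
          rw [← sq_abs x.1, ← sq_abs x.2]
          nlinarith [abs_nonneg x.1, abs_nonneg x.2]
        exact_mod_cast h2.trans h1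
      have hlr0 : 0 ≤ Real.log r := Real.log_nonneg hr1
      have hlr : Real.log r ≤ Real.log m := Real.log_le_log (by linarith) hrm
      rw [← hr, Real.rpow_def_of_pos (by linarith)]
      have h5 : |Real.log r * p| ≤ 2 * |P| / Real.log 2 * Real.log m ^ 2 := by
        rw [abs_mul, abs_of_nonneg hlr0, div_mul_eq_mul_div, le_div_iff₀ hl2]
        calc Real.log r * |p| * Real.log 2 ≤ Real.log m * |P| * Real.log m := by
              gcongr
          _ ≤ 2 * |P| * Real.log m ^ 2 := by nlinarith [mul_nonneg (abs_nonneg P) (sq_nonneg (Real.log m))]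
      obtain ⟨h6, h7⟩ := abs_le.1 h5
      exact ⟨Real.exp_le_exp.2 (by linarith), Real.exp_le_exp.2 h7⟩
    refine h D (fun x => (√((x.1 : ℝ) ^ 2 + (x.2 : ℝ) ^ 2)) ^ p) n hn (fun x => by positivity)
      (fun m g1 g2 g3 x hx hx0 => ?_) (fun m g1 g2 g3 => ?_)
    · refine ((hb m (by omega) x hx hx0).2).trans (Real.exp_le_exp.2 ?_)
      rw [hB]
      nlinarith [mul_nonneg hA (sq_nonneg (Real.log (m : ℝ)))]
    · have hL := hlow D (hHp.trans hD) n hn m g1 g2 g3
      have hfin := Pool.Agent.X44.GR.V.walks_finite D m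
      have h1 : ((Pool.Agent.X44.GR.V.walks D m).ncard : ℝ) *
          Real.exp (-(2 * |P| / Real.log 2 * Real.log m ^ 2)) ≤
          ∑ᶠ w ∈ Pool.Agent.X44.GR.V.walks D m,
            (√(((w (Fin.last m)).1 : ℝ) ^ 2 + ((w (Fin.last m)).2 : ℝ) ^ 2)) ^ p := by
        rw [finsum_mem_eq_finite_toFinset_sum _ hfin, Set.ncard_eq_toFinset_card _ hfin]
        rw [← nsmul_eq_mul, ← Finset.sum_const]
        refine Finset.sum_le_sum (fun w hw => ?_)
        rw [Set.Finite.mem_toFinset] at hw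
        refine (hb m (by omega) (w (Fin.last m)) ?_ ?_).1
        · -- the end point is at distance at most m
          have hstep : ∀ k : ℕ, ∀ hk : k < m + 1, |(w ⟨k, hk⟩).1| + |(w ⟨k, hk⟩).2| ≤ k := by
            intro k
            induction k with
            | zero =>
              intro hk
              have : w ⟨0, hk⟩ = 0 := hw.1
              rw [this]; simp
            | succ k ih =>
              intro hk
              have h1 := hw.2.2.1 ⟨k, by omega⟩
              have h2 := ih (by omega)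
              have e1 : (⟨k, by omega⟩ : Fin m).succ = ⟨k + 1, hk⟩ := rfl
              have e2 : (⟨k, by omega⟩ : Fin m).castSucc = ⟨k, by omega⟩ := rfl
              rw [e1, e2] at h1
              obtain ⟨a, ha⟩ : ∃ a, a = w ⟨k + 1, hk⟩ := ⟨_, rfl⟩
              obtain ⟨b, hb⟩ : ∃ b, b = w ⟨k, by omega⟩ := ⟨_, rfl⟩
              rw [← ha, ← hb] at h1
              rw [← hb] at h2
              rw [← ha]
              have h3 := abs_add_le (a.1 - b.1) b.1
              have h4 := abs_add_le (a.2 - b.2) b.2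
              rw [sub_add_cancel] at h3 h4
              push_cast
              linarith
          exact hstep m (by omega)
        · intro h0
          have h1 : w (Fin.last m) = w 0 := h0.trans hw.1.symm
          have h2 := hw.2.1 h1
          have h3 := congrArg Fin.val h2
          simp at h3
          omega
      refine le_trans ?_ h1
      calc _root_.H981.mu ^ m * Real.exp (-(B * Real.log m ^ 2))
          = (_root_.H981.mu ^ m * Real.exp (-(A * Real.log m ^ 2))) *
            Real.exp (-(2 * |P| / Real.log 2 * Real.log m ^ 2)) := by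
            rw [mul_assoc, ← Real.exp_add, hB]; congr 2; ring
        _ ≤ _ := mul_le_mul_of_nonneg_right hL (Real.exp_pos _).le

end Pool.Agent.Results.MP_df1d0b_pr.RatioLimitInDomains
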