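import Pool.Agent.X44.GR.T2

/-!
# Half-plane self-avoiding walk: merging of the laws of the trace, of maxima and of hitting events

The uniform `n`-step self-avoiding walk in a domain `D` of the square lattice (the closed upper
half-plane, or any larger set; a wedge, or any larger set; or any set for which the number of walks is
at least `μ^m exp (- A (log m)^s)` at the lengths `m` between `n / 2` and `2 n`). The joint law of the
first and last `j + 1` sites, of the ordered sequence of the visits in a finite set `B` of sites, of the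
maxima of `k` arbitrary functions on the lattice along the walk (for instance the side lengths of the
bounding box, or the indicators that the walk hits given infinite sets) and of the rescaled path changes
little from `n` to `n + 2` steps, uniformly in the functions and in the position of `B`: it matters only
that `j + k + |B|` is small compared with `n / (log n)^s`.

Proof in outline. Double counting of pairs (walk, inserted bump): the average number of insertions
which change the functional is the average number of bumps whose deletion changes it, and the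
maximum of a function along the walk changes under the deletion of at most two bumps, the ordered trace
in `B` under the deletion of at most `2 |B|` bumps.
-/

set_option autoImplicit false
set_option linter.unusedVariables false

namespace Pool.Agent.Results.MP_df1d0b_pr.TracesInDomains

open Filter Topology
open scoped Classical

/-- The self-avoiding walks on `ℤ²` with `n` steps which start at the origin and stay in `D`. -/
def walks (D : Set (ℤ × ℤ)) (n : ℕ) : Set (Fin (n + 1) → ℤ × ℤ) :=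
  {w | w 0 = 0 ∧ Function.Injective w ∧ (∀ i : Fin n,
    |(w i.succ).1 - (w i.castSucc).1| + |(w i.succ).2 - (w i.castSucc).2| = 1) ∧ ∀ i, w i ∈ D}

/-- The site of the walk `w` at the time `k` (the last site if `k > n`). -/
def site {n : ℕ} (w : Fin (n + 1) → ℤ × ℤ) (k : ℕ) : ℤ × ℤ := w ⟨min k n, by omega⟩

/-- The mean of `g` under the uniform law on the `n`-step walks in `D`. -/
noncomputable def mean (D : Set (ℤ × ℤ)) (n : ℕ) (g : (Fin (n + 1) → ℤ × ℤ) → ℝ) : ℝ :=
  (∑ᶠ w ∈ walks D n, g w) / ((walks D n).ncard : ℝ)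

/-- The rescaled walk as a path with the time parameter `t` in `[0, 1]`: the site at the time
`⌊n t⌋`, divided by `R`. -/
noncomputable def path {n : ℕ} (R : ℝ) (w : Fin (n + 1) → ℤ × ℤ) (t : ℝ) : ℝ × ℝ :=
  (((site w ⌊(n : ℝ) * t⌋₊).1 : ℝ) / R, ((site w ⌊(n : ℝ) * t⌋₊).2 : ℝ) / R)

/-- The trace in `B`: the list of the visited sites of `B`, in the order of the visits. -/
noncomputable def trace {n : ℕ} (B : Finset (ℤ × ℤ)) (w : Fin (n + 1) → ℤ × ℤ) : List (ℤ × ℤ) :=
  (List.ofFn w).filter (fun x => decide (x ∈ B))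

/-- The maximum of `g` along the walk. -/
noncomputable def maxi {n : ℕ} (g : ℤ × ℤ → ℝ) (w : Fin (n + 1) → ℤ × ℤ) : ℝ := ⨆ i, g (w i)

/-- Functionals of the first `j + 1` sites, the last `j + 1` sites, the trace, `k` maxima and the path. -/
abbrev Functional (j k : ℕ) := (Fin (j + 1) → ℤ × ℤ) → (Fin (j + 1) → ℤ × ℤ) → List (ℤ × ℤ) →
  (Fin k → ℝ) → (ℝ → ℝ × ℝ) → ℝ

/-- The functional has values in `[0, 1]`, and for fixed other arguments it is 1-Lipschitz in the path
for the sup distance on `[0, 1]`. -/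
structure Admissible {j k : ℕ} (G : Functional j k) : Prop where
  val : ∀ a b l t x, 0 ≤ G a b l t x ∧ G a b l t x ≤ 1
  lip : ∀ a b l t (x y : ℝ → ℝ × ℝ) (δ : ℝ), (∀ u, 0 ≤ u → u ≤ 1 → ‖x u - y u‖ ≤ δ) →
    |G a b l t x - G a b l t y| ≤ δ

/-- `G` evaluated at the walk `w`, with the window `B`, the functions `g` and the scale `R`. -/
noncomputable def eval {j k : ℕ} (G : Functional j k) (B : Finset (ℤ × ℤ)) (g : Fin k → ℤ × ℤ → ℝ)
    (R : ℝ) (n : ℕ) (w : Fin (n + 1) → ℤ × ℤ) : ℝ :=
  G (fun i => site w i) (fun i => site w (n - i)) (trace B w) (fun l => maxi (g l) w) (path R w)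

/-- The means of all admissible functionals for `n` and `n + 2` steps in `D` are close:
the error is at most `K ((log n)^s ((c + j + |B| + k) / n + 1 / R))^(1/2)`. -/
def Close (K : ℝ) (s : ℕ) (c : ℝ) (D : Set (ℤ × ℤ)) (n : ℕ) : Prop :=
  ∀ (j k : ℕ) (G : Functional j k) (B : Finset (ℤ × ℤ)) (g : Fin k → ℤ × ℤ → ℝ) (R : ℝ), 0 < R →
    Admissible G →
    |mean D (n + 2) (eval G B g R (n + 2)) - mean D n (eval G B g R n)| ≤
      K * √(Real.log n ^ s * ((c + (j + B.card + k : ℕ)) / n + 1 / R))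

lemma hit_iff {n : ℕ} (B : Set (ℤ × ℤ)) (w : Fin (n + 1) → ℤ × ℤ) :
    maxi (fun x => if x ∈ B then (1 : ℝ) else 0) w = 1 ↔ ∃ i, w i ∈ B := by
  have hb : BddAbove (Set.range (fun i => if w i ∈ B then (1 : ℝ) else 0)) :=
    (Set.finite_range _).bddAbove
  unfold maxi
  constructor
  · intro h
    by_contra hc
    push Not at hc
    have : (⨆ i, (if w i ∈ B then (1 : ℝ) else 0)) = 0 := by
      have : (fun i => if w i ∈ B then (1 : ℝ) else 0) = fun _ => 0 := by
        funext i
        rw [if_neg (hc i)]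
      rw [this]
      exact ciSup_const
    rw [this] at h
    norm_num at h
  · rintro ⟨i, hi⟩
    apply le_antisymm
    · apply ciSup_le
      intro i
      simp only
      split_ifs <;> norm_num
    · have := le_ciSup hb i
      simp only [hi, if_true] at this
      exact this

/-- **Theorem.** Let `μ = lim c_n^(1/n)`, `c_n` the number of all `n`-step self-avoiding walks on `ℤ²`.
(1) For all `A` and `s ≥ 2` there is `K` such that for every `D ⊆ ℤ²` and `n ≥ 3` with
`#(walks D m) ≥ μ^m exp (- A (log m)^s)` for all `m` of the parity of `n` with `n/2 ≤ m ≤ 2n`: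
`Close K s ((log n)^s) D n`.
(2) There is `K` with `Close K 2 ((log n)^2) D n` for every `D` which contains the closed upper half
plane and every `n ≥ 3`.
(3) For `0 < η ≤ 1` there is `K` with `Close K 3 ((log n)^3) D n` for every `D` which contains the wedge
`|x| ≤ η y` and every `n ≥ 3`.
(4) In the whole plane there is `K` with `Close K 2 1 ℤ² n` for every `n ≥ 3`.
(5) There is `K` such that for every `D` which contains the closed upper half plane, every `n ≥ 3`, every
`k`, all (finite or infinite) sets `B 1, …, B k` of sites and every `S`, the probability that the set of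
the indices `l` such that the walk hits `B l` is in `S` changes by at most
`K (log n) (((log n)^2 + k) / n)^(1/2)` from `n` to `n + 2` steps. -/
theorem result : ∃ μ : ℝ, 0 < μ ∧
    Tendsto (fun n : ℕ => ((walks Set.univ n).ncard : ℝ) ^ (1 / (n : ℝ))) atTop (𝓝 μ) ∧
    (∀ (A : ℝ) (s : ℕ), 2 ≤ s → ∃ K : ℝ, ∀ (D : Set (ℤ × ℤ)) (n : ℕ), 3 ≤ n →
      (∀ m : ℕ, n ≤ 2 * m → m ≤ 2 * n → m % 2 = n % 2 →
        μ ^ m * Real.exp (-(A * Real.log m ^ s)) ≤ ((walks D m).ncard : ℝ)) →
      Close K s (Real.log n ^ s) D n) ∧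
    (∃ K : ℝ, ∀ D : Set (ℤ × ℤ), {x : ℤ × ℤ | 0 ≤ x.2} ⊆ D → ∀ n : ℕ, 3 ≤ n →
      Close K 2 (Real.log n ^ 2) D n) ∧
    (∀ η : ℝ, 0 < η → η ≤ 1 → ∃ K : ℝ, ∀ D : Set (ℤ × ℤ),
      {x : ℤ × ℤ | |(x.1 : ℝ)| ≤ η * x.2} ⊆ D → ∀ n : ℕ, 3 ≤ n → Close K 3 (Real.log n ^ 3) D n) ∧
    (∃ K : ℝ, ∀ n : ℕ, 3 ≤ n → Close K 2 1 Set.univ n) ∧
    (∃ K : ℝ, ∀ D : Set (ℤ × ℤ), {x : ℤ × ℤ | 0 ≤ x.2} ⊆ D → ∀ n : ℕ, 3 ≤ n →
      ∀ (k : ℕ) (B : Fin k → Set (ℤ × ℤ)) (S : Set (Set (Fin k))),
      |mean D (n + 2) (fun w => if {l | ∃ i, w i ∈ B l} ∈ S then 1 else 0) -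
        mean D n (fun w => if {l | ∃ i, w i ∈ B l} ∈ S then 1 else 0)| ≤
        K * (Real.log n * √((Real.log n ^ 2 + k) / n))) := by
  have hHp : Pool.Agent.X44.GR.P.Hp ⊆ {x : ℤ × ℤ | 0 ≤ x.2} := by
    rintro x (h | h)
    · exact h.le
    · exact h.1.ge
  -- the general statement
  have gen : ∀ (A : ℝ) (s : ℕ), 2 ≤ s → ∃ K : ℝ, 0 ≤ K ∧ ∀ (D : Set (ℤ × ℤ)) (n : ℕ), 3 ≤ n →
      Pool.Agent.X44.GR.V.Low A s _root_.H981.mu D n → Close K s (Real.log n ^ s) D n := by
    intro A s hs
    have hA : 0 ≤ |A| := abs_nonneg A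
    obtain ⟨K, hK, h⟩ := Pool.Agent.X44.GR.T.traces |A| hA s hs
    obtain ⟨L, hL, hF⟩ := Pool.Agent.X44.GR.T.famE_low |A| hA s hs
    refine ⟨K * √(1 + L), by positivity, fun D n hn hlow j k G B g R hR hG => ?_⟩
    have hlow' : Pool.Agent.X44.GR.V.Low |A| s _root_.H981.mu D n :=
      hlow.mono (le_abs_self A) _root_.H981.mu_pos (le_refl D)
    have hn' : (3 : ℝ) ≤ n := by exact_mod_cast hn
    have hnp : (0 : ℝ) < n := by linarith
    have hl1 : 1 ≤ Real.log n := Pool.Agent.H739K.RATE.one_le_log hn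
    have hls : 1 ≤ Real.log n ^ s := one_le_pow₀ hl1
    have h1 := h (L * Real.log n ^ s) (by positivity) D n hn (hF D n hn hlow') j k G B g R hR
      ⟨hG.val, hG.lip⟩
    refine h1.trans ?_
    rw [mul_assoc]
    apply mul_le_mul_of_nonneg_left _ hK
    rw [← Real.sqrt_mul (by positivity)]
    apply Real.sqrt_le_sqrt
    obtain ⟨N, hN⟩ : ∃ N : ℝ, N = ((j + B.card + k : ℕ) : ℝ) := ⟨_, rfl⟩
    have hN0 : 0 ≤ N := by rw [hN]; positivity
    rw [← hN]
    have e : (1 + L) * (Real.log (n : ℝ) ^ s * ((Real.log n ^ s + N) / n + 1 / R)) =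
        Real.log (n : ℝ) ^ s * (((1 + L) * (Real.log n ^ s + N)) / n + (1 + L) * (1 / R)) := by ring
    rw [e]
    apply mul_le_mul_of_nonneg_left _ (by positivity)
    have h2 : 1 + L * Real.log n ^ s + N ≤ (1 + L) * (Real.log n ^ s + N) := by nlinarith
    have h3 : 1 / R ≤ (1 + L) * (1 / R) := by
      have : 0 ≤ 1 / R := by positivity
      nlinarith
    exact add_le_add (div_le_div_of_nonneg_right h2 hnp.le) h3
  obtain ⟨A, hA, hhalf⟩ := Pool.Agent.X44.GR.V.low_half
  obtain ⟨K2, hK2, hcl⟩ := gen A 2 le_rfl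
  refine ⟨_root_.H981.mu, _root_.H981.mu_pos, Pool.Agent.X44.GR.V.tendsto_mu,
    fun A s hs => ?_, ⟨K2, fun D hD n hn => hcl D n hn (hhalf D (hHp.trans hD) n hn)⟩,
    fun η h1 h2 => ?_, ?_, ?_⟩
  · obtain ⟨K, hK, h⟩ := gen A s hs
    exact ⟨K, h⟩
  · obtain ⟨A', hA', hw⟩ := Pool.Agent.X44.GR.V.low_wedge
    obtain ⟨K, hK, h⟩ := gen (A' / η) 3 (by norm_num)
    exact ⟨K, fun D hD n hn => h D n hn (hw η h1 h2 D hD n hn)⟩
  · obtain ⟨K, hK, h⟩ := Pool.Agent.X44.GR.T.traces A hA 2 le_rfl
    refine ⟨K, fun n hn j k G B g R hR hG => ?_⟩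
    have hF := Pool.Agent.X44.GR.T.famE_univ hA (hhalf Set.univ (Set.subset_univ _) n hn)
    have h1 := h 0 le_rfl Set.univ n hn hF j k G B g R hR ⟨hG.val, hG.lip⟩
    rw [add_zero] at h1
    exact h1
  · refine ⟨K2 * √2, fun D hD n hn k B S => ?_⟩
    have hn' : (3 : ℝ) ≤ n := by exact_mod_cast hn
    have hnp : (0 : ℝ) < n := by linarith
    have hl1 : 1 ≤ Real.log n := Pool.Agent.H739K.RATE.one_le_log hn
    have h1 := hcl D n hn (hhalf D (hHp.trans hD) n hn) 0 k
      (fun a b l t x => if {l | t l = 1} ∈ S then 1 else 0) ∅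
      (fun l x => if x ∈ B l then 1 else 0) n hnp
      ⟨fun a b l t x => by split_ifs <;> norm_num, fun a b l t x y δ hδ => by
        have h0 : ‖x 0 - y 0‖ ≤ δ := hδ 0 le_rfl zero_le_one
        rw [sub_self, abs_zero]
        exact (norm_nonneg _).trans h0⟩
    have e : ∀ m, (eval (j := 0) (fun a b l t x => if {l | t l = 1} ∈ S then 1 else 0) ∅
        (fun l x => if x ∈ B l then 1 else 0) (n : ℝ) m : (Fin (m + 1) → ℤ × ℤ) → ℝ) =
        fun w => if {l | ∃ i, w i ∈ B l} ∈ S then 1 else 0 := by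
      intro m
      funext w
      unfold eval
      have : {l | maxi (fun x => if x ∈ B l then (1 : ℝ) else 0) w = 1} = {l | ∃ i, w i ∈ B l} := by
        ext l
        exact hit_iff (B l) w
      simp only [this]
    rw [e, e] at h1
    refine h1.trans ?_
    rw [mul_assoc]
    apply mul_le_mul_of_nonneg_left _ hK2
    have hlog : Real.log (n : ℝ) * √((Real.log n ^ 2 + k) / n) =
        √(Real.log (n : ℝ) ^ 2 * ((Real.log n ^ 2 + k) / n)) := by
      rw [Real.sqrt_mul (by positivity), Real.sqrt_sq (by linarith)]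
    rw [hlog, ← Real.sqrt_mul (by norm_num)]
    apply Real.sqrt_le_sqrt
    have hk : (0 : ℝ) ≤ k := Nat.cast_nonneg k
    have hl2 : 1 ≤ Real.log (n : ℝ) ^ 2 := one_le_pow₀ hl1
    have e2 : 2 * (Real.log (n : ℝ) ^ 2 * ((Real.log n ^ 2 + k) / n)) =
      Real.log (n : ℝ) ^ 2 * ((2 * (Real.log n ^ 2 + k)) / n) := by ring
    rw [e2]
    apply mul_le_mul_of_nonneg_left _ (by positivity)
    rw [← add_div]
    apply div_le_div_of_nonneg_right _ hnp.le
    simp only [Finset.card_empty, add_zero, zero_add]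
    linarith

end Pool.Agent.Results.MP_df1d0b_pr.TracesInDomains
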