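import Pool.Agent.X138.CutTimes

set_option autoImplicit false

/-!
# Winding of the infinite half-plane self-avoiding walk on the hexagonal grid before its cut times
-/

namespace Pool.Agent.Results.MP_df1d0b_pr.WindingAtCutTimes

open Filter Topology MeasureTheory

/-- `e^{iπ/3}` -/
noncomputable def Om : ℂ := ⟨1 / 2, Real.sqrt 3 / 2⟩

/-- the hexagonal grid with edge length one and a vertex at `0` (the triangular grid without the
centres of the hexagons) -/
def HexG : Set ℂ := {z | ∃ a b : ℤ, (a - b) % 3 ≠ 2 ∧ z = a + b * Om}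

/-- the grid `Λ` multiplied by `u` -/
def rot (u : ℂ) (Λ : Set ℂ) : Set ℂ := {z | ∃ w ∈ Λ, z = u * w}

/-- self-avoiding walks with `n` steps in the closed upper half-plane, starting at `0`, with steps of
length `r` between points of `Λ`; a walk is continued by its last point -/
def PW (Λ : Set ℂ) (r : ℝ) (n : ℕ) : Set (ℕ → ℂ) :=
  {γ | γ 0 = 0 ∧ (∀ i, γ i ∈ Λ ∧ 0 ≤ (γ i).im) ∧ (∀ i < n, ‖γ (i + 1) - γ i‖ = r) ∧
    (∀ i ≤ n, ∀ j ≤ n, γ i = γ j → i = j) ∧ ∀ i, n ≤ i → γ i = γ n}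

/-- `k` is a cut time of `γ`: there is a horizontal line such that `γ` is below or on the line up to
the time `k`, and strictly above the line afterwards -/
def CutTime (k : ℕ) (γ : ℕ → ℂ) : Prop :=
  ∃ y : ℝ, (∀ i ≤ k, (γ i).im ≤ y) ∧ ∀ i, k < i → y < (γ i).im

/-- the total turning of the piece of `γ` between the times `s` and `t`: the sum of the angles by
which the direction of the walk turns at the times `s + 1, …, t - 1` -/
noncomputable def wind (γ : ℕ → ℂ) (s t : ℕ) : ℝ :=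
  ∑ i ∈ Finset.Ico s (t - 1), Complex.arg ((γ (i + 2) - γ (i + 1)) / (γ (i + 1) - γ i))

/-- There is a constant `C > 0` such that for the hexagonal grid of edge length `‖u‖` with a vertex at
`0` and an edge at `0` perpendicular to the real line, the infinite half-plane self-avoiding walk (the
weak limit `μ` of the uniform measures on `n`-step half-plane walks) satisfies:
(1) for `k ≥ 2`, `b ≥ 0` and `m`, the probability that `k` is a cut time and that some piece of the
walk before the time `k` has a total turning larger than `2πm` is at most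
`2 exp (C e^{2b} (log k)^2 - b m)`;
(2) almost surely, for every sufficiently large cut time `k`, all pieces of the walk before the time
`k` have total turning at most `C (log k)^2`. -/
theorem result : ∃ C : ℝ, 0 < C ∧ ∀ u : ℂ, u ≠ 0 →
    (∃ z ∈ rot u HexG, ‖z‖ = ‖u‖ ∧ z.re = 0) →
    ∃ μ : Measure (ℕ → ℂ), IsProbabilityMeasure μ ∧
      (∀ᵐ γ ∂μ, γ 0 = 0 ∧ (∀ i, γ i ∈ rot u HexG ∧ 0 ≤ (γ i).im) ∧
        (∀ i, ‖γ (i + 1) - γ i‖ = ‖u‖) ∧ Function.Injective γ) ∧
      (∀ F : BoundedContinuousFunction (ℕ → ℂ) ℝ,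
        Tendsto (fun n => (∑ᶠ γ ∈ PW (rot u HexG) ‖u‖ n, F γ) /
          ((PW (rot u HexG) ‖u‖ n).ncard : ℝ)) atTop (𝓝 (∫ γ, F γ ∂μ))) ∧
      (∀ (k m : ℕ) (b : ℝ), 2 ≤ k → 0 ≤ b →
        μ {γ | CutTime k γ ∧ ∃ s t : ℕ, s ≤ t ∧ t ≤ k ∧ 2 * Real.pi * m < |wind γ s t|} ≤
          ENNReal.ofReal (2 * Real.exp (C * Real.exp (2 * b) * Real.log k ^ 2 - b * m))) ∧
      ∀ᵐ γ ∂μ, ∀ᶠ k : ℕ in atTop, CutTime k γ → ∀ s t : ℕ, s ≤ t → t ≤ k →
        |wind γ s t| ≤ C * Real.log k ^ 2 := by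
  obtain ⟨K, hK, hbad⟩ := Pool.Agent.X138.Hx.hex_bad
  have he2 := Real.exp_pos 2
  have hpi := Real.pi_gt_three
  refine ⟨2 * Real.pi * (4 * K * Real.exp 2 + 5), by positivity, ?_⟩
  intro u hu hv
  obtain ⟨c0, hc, E, hE⟩ := Pool.Agent.W818.TD.emb_vert u hu hv
  obtain ⟨μ, h1, h2, h3, h4⟩ :=
    Pool.Agent.H976R3.HPL.concl_of_emb E Pool.Agent.H976R3.HPL.facts_hexA
  have := h1
  have hr : 0 < ‖u‖ := norm_pos_iff.2 hu
  refine ⟨μ, h1, h2, h4, ?_, ?_⟩
  · intro k m b hk hb
    refine (Pool.Agent.X138.CI.prob hK hbad hc hr E hE μ h2 h3 hk hb m).trans ?_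
    apply ENNReal.ofReal_le_ofReal
    apply mul_le_mul_of_nonneg_left _ (by norm_num)
    apply Real.exp_le_exp.2
    have h5 : 4 * K ≤ 2 * Real.pi * (4 * K * Real.exp 2 + 5) := by
      have h6 : (1 : ℝ) ≤ Real.exp 2 := Real.one_le_exp (by norm_num)
      have h7 : 4 * K ≤ 4 * K * Real.exp 2 := by nlinarith
      nlinarith
    have h8 : 0 ≤ Real.exp (2 * b) * Real.log k ^ 2 := by positivity
    nlinarith
  · exact Pool.Agent.X138.CI.asure hK hbad hc hr E hE μ h2 h3

end Pool.Agent.Results.MP_df1d0b_pr.WindingAtCutTimes
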